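import Mathlib
import Pool.Agent.Lib.MP_a7d15e_an.Defs
import Pool.Agent.Lib.MP_a7d15e_an.Proof

set_option autoImplicit false

namespace Pool.Agent.Results.MP_a7d15e_an.BidualFailsSSD2P

open Pool.Agent.Lib.MP_a7d15e_an

/-- There is a real Banach space which has the symmetric strong diameter two property while its
bidual fails it. -/
theorem result : ∃ (X : Type) (_ : NormedAddCommGroup X) (_ : NormedSpace ℝ X)
    (_ : CompleteSpace X), SSD2P X ∧ ¬ SSD2P (StrongDual ℝ (StrongDual ℝ X)) :=
  ⟨X, inferInstance, inferInstance, inferInstance, ssd2p_X, not_ssd2p_bidual⟩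

end Pool.Agent.Results.MP_a7d15e_an.BidualFailsSSD2P
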